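import Pool.Agent.Run7.h109.Defs
import Pool.Agent.Run7.h109.Fin

open Run7.h109

namespace Pool.Agent.Results.MP_99eb35_ag.Disproof

theorem result : ∀ (k : Type) [Field k] [IsAlgClosed k] [CharZero k],
    ∃ (C : Curve k) (ω : C.X.Modules), Dualizing ω ∧ ¬ Hyperelliptic C ∧
      ∀ τ σ : Bool, MConnected ω τ 4 ∧ ∃ q : ℕ, (q : ℤ) + 1 ≤ pa C - 2 ∧
        ¬ (KoszulVanishing ω q ↔
          ((pa C : ℝ) : EReal) - cliffordIndex ω τ σ - 1 ≤ ((q + 1 : ℕ) : EReal)) := by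
  intro k _ _ _
  exact final k

end Pool.Agent.Results.MP_99eb35_ag.Disproof
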